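import Mathlib

namespace Pool.Agent.Results.MP_487945_co.OctahedronCharThree

open MvPolynomial

universe u

/-- The boundary of the octahedron on the vertices `0,...,5`, with antipodal pairs `{0,1}`,
`{2,3}`, `{4,5}`: the faces are the vertex sets that contain no antipodal pair. -/
def Oct : Finset (Finset (Fin 6)) :=
  Finset.univ.filter fun s => ¬ ({0, 1} ⊆ s) ∧ ¬ ({2, 3} ⊆ s) ∧ ¬ ({4, 5} ⊆ s)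

variable {K : Type u} [Field K]

/-- The Stanley-Reisner ideal of a complex on `Fin n`. -/
noncomputable def SR (K : Type u) [Field K] {n : ℕ} (D : Finset (Finset (Fin n))) :
    Ideal (MvPolynomial (Fin n) K) :=
  Ideal.span {f | ∃ s : Finset (Fin n), s ∉ D ∧ f = ∏ v ∈ s, X v}

/-- The ideal of the moment-curve system: `θ_j = ∑_v t_v^j x_v` for `j = 1, ..., d`. -/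
noncomputable def momentIdeal {n : ℕ} (d : ℕ) (t : Fin n → K) : Ideal (MvPolynomial (Fin n) K) :=
  Ideal.span {f | ∃ j, 1 ≤ j ∧ j ≤ d ∧ f = ∑ v, C (t v ^ j) * X v}

/-- The degree `i` piece of `S / J`. -/
def piece {n : ℕ} (J : Ideal (MvPolynomial (Fin n) K)) (i : ℕ) : Set (MvPolynomial (Fin n) K ⧸ J) :=
  Ideal.Quotient.mk J '' {p | p.IsHomogeneous i}

/-- `S / J` has the hard Lefschetz property with top degree `d`. -/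
def HardLefschetz {n : ℕ} (J : Ideal (MvPolynomial (Fin n) K)) (d : ℕ) : Prop :=
  ∃ l ∈ piece J 1, ∀ k, 2 * k ≤ d →
    Set.BijOn (fun a => l ^ (d - 2 * k) * a) (piece J k) (piece J (d - k))

lemma cubes {A : Type u} [CommRing A] (I y0 y1 y2 y3 y4 y5 : A) (hI : I ^ 2 + 1 = 0)
    (h3 : (3 : A) = 0)
    (e1 : I * y0 + y1 + (-1) * y2 + (-I) * y3 + (-1 + I) * y4 + (1 - I) * y5 = 0)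
    (e2 : I ^ 2 * y0 + y1 + (-1) ^ 2 * y2 + (-I) ^ 2 * y3 + (-1 + I) ^ 2 * y4 + (1 - I) ^ 2 * y5 = 0)
    (e3 : I ^ 3 * y0 + y1 + (-1) ^ 3 * y2 + (-I) ^ 3 * y3 + (-1 + I) ^ 3 * y4 + (1 - I) ^ 3 * y5 = 0)
    (q0 : y0 * y1 = 0) (q1 : y2 * y3 = 0) (q2 : y4 * y5 = 0) :
    y0 ^ 3 = 0 ∧ y1 ^ 3 = 0 ∧ y2 ^ 3 = 0 ∧ y3 ^ 3 = 0 ∧ y4 ^ 3 = 0 ∧ y5 ^ 3 = 0 := by
  refine ⟨?_, ?_, ?_, ?_, ?_, ?_⟩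
  · linear_combination ((-1)*y5^2 + (-1)*y4^2 + y3*y5 + (-1)*y3*y4 + (-1)*y3^2 + y2*y5 + y2*y4 + (-1)*y2*y3 + (-1)*y2^2 + y1*y5 + (-1)*y1*y4 + y1*y3 + y1*y2 + y1^2 + y0*y5 + (-1)*y0*y4 + (-1)*y0*y2 + y0*y1 + I*y5^2 + (-1)*I*y4*y5 + I*y4^2 + (-1)*I*y3*y5 + (-1)*I*y3*y4 + (-1)*I*y3^2 + (-1)*I*y2*y5 + (-1)*I*y2*y3 + I*y2^2 + (-1)*I*y1*y5 + (-1)*I*y1*y4 + (-1)*I*y1^2 + (-1)*I*y0*y5 + I*y0*y4 + (-1)*I*y0*y3 + (-1)*I*y0^2) * e1 + (y5^2 + (-1)*y4^2 + y3^2 + (-1)*y2*y5 + (-1)*y2*y4 + y2*y3 + (-1)*y1*y4 + (-1)*y1*y3 + y1*y2 + (-1)*y1^2 + (-1)*I*y5^2 + I*y4*y5 + I*y3*y5 + (-1)*I*y2*y5 + I*y2*y3 + I*y2^2 + I*y1*y5 + (-1)*I*y1*y3 + I*y1*y2 + I*y1^2) * e2 + (y5^2 + y3*y5 + y3*y4 + (-1)*y3^2 + y2*y5 + (-1)*y2*y4 + y2^2 + (-1)*I*y5^2 + (-1)*I*y4*y5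 + I*y3*y5 + I*y3^2) * e3 + ((-1)*y3 + (-1)*I*y5 + (-1)*I*y4) * q0 + ((-1)*y5 + y4 + (-1)*y3) * q1 + ((-1)*y5 + y4 + (-1)*y3) * q2 + ((-7)*y5^3 + (7)*y4^2*y5 + y3*y5^2 + (6)*y3*y4^2 + y3^2*y5 + (-6)*y3^2*y4 + (-3)*y3^3 + (-5)*y2*y5^2 + (7)*y2*y4*y5 + (-2)*y2*y4^2 + (3)*y2*y3*y4 + (-2)*y2*y3^2 + (4)*y2^2*y4 + y2^2*y3 + y1*y5^2 + (3)*y1*y4*y5 + (2)*y1*y4^2 + (-2)*y1*y3*y5 + (-1)*y1*y3*y4 + y1*y3^2 + y1*y2*y5 + y1*y2*y4 + (-1)*y1*y2*y3 + (2)*y1^2*y5 + (4)*y1^2*y4 + (-4)*y0*y5^2 + (2)*y0*y4*y5 + (-1)*y0*y4^2 + (3)*y0*y3*y4 + (2)*y0*y2*y5 + y0*y2*y4 + (-1)*y0*y2^2 + y0*y1*y5 + (2)*y0*y1*y4 + y0*y1*y3 + (-1)*y0*y1*y2 + (2)*y0*y1^2 + y0^3 + (5)*I*y5^3 + (-1)*I*y4*y5^2 + (-4)*I*y4^2*y5 + (-1)*I*y3*y5^2 + I*y3*y4*y5 + (-1)*I*y3*y4^2 + (-4)*I*y3^2*y5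 + (5)*I*y3^2*y4 + (-1)*I*y3^3 + (2)*I*y2*y5^2 + (-1)*I*y2*y4*y5 + I*y2*y4^2 + I*y2*y3*y5 + (-2)*I*y2*y3*y4 + (-1)*I*y2*y3^2 + (-2)*I*y2^2*y4 + (-1)*I*y1*y5^2 + (-1)*I*y1*y4*y5 + I*y1*y3*y4 + I*y1*y3^2 + (-1)*I*y1*y2*y5 + (-1)*I*y1*y2*y4 + (-1)*I*y1*y2*y3 + (-1)*I*y1^2*y5 + (-1)*I*y1^2*y4 + (-1)*I*y1^2*y3 + (-1)*I*y0*y4*y5 + (-2)*I*y0*y3*y5 + (-1)*I*y0*y3*y4 + I*y0*y3^2 + I*y0*y2*y4 + (-1)*I*y0*y2*y3 + (-2)*I*y0*y2^2 + (-1)*I*y0*y1*y5 + I*y0*y1*y3 + (-1)*I*y0*y1*y2 + (-1)*I*y0*y1^2 + (-1)*I^2*y5^3 + I^2*y4^2*y5 + (-2)*I^2*y3*y4*y5 + (2)*I^2*y3^2*y5 + (-1)*I^2*y3^2*y4 + I^2*y3^3 + I^2*y0*y5^2 + I^2*y0*y4*y5 + (-1)*I^2*y0*y3*y5 + (-1)*I^2*y0*y3^2) * hI + ((2)*y5^3 + (-2)*y4^2*y5 + (-1)*y3*y5^2 + y3*y4*y5 + (-2)*y3*y4^2 + y3^2*y4 +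 y3^3 + y2*y5^2 + (-1)*y2*y4*y5 + y2*y4^2 + y2*y3*y5 + (-2)*y2*y3*y4 + y2^2*y5 + (-1)*y2^2*y4 + (-1)*y2^2*y3 + (-1)*y1*y5^2 + y1*y3*y4 + (-1)*y1*y2*y5 + y1*y2*y3 + (-1)*y1^2*y5 + y0*y5^2 + (-1)*y0*y3*y4 + (-1)*y0*y2*y4 + (-1)*y0*y1*y5 + y0*y1*y2 + (-1)*y0*y1^2 + I*y4*y5^2 + (-1)*I*y4^2*y5 + I*y3*y5^2 + (-1)*I*y3*y4*y5 + (-1)*I*y3*y4^2 + I*y3^2*y5 + I*y2*y5^2 + (-4)*I*y2*y4*y5 + I*y2*y3*y4 + (-1)*I*y2^2*y3 + I*y1*y5^2 + (-1)*I*y1*y4*y5 + (-1)*I*y1*y4^2 + (-1)*I*y1*y3*y4 + I*y1*y2*y5 + I*y1*y2*y3 + (-1)*I*y1*y2^2 + (-1)*I*y1^2*y4 + I*y1^2*y3 + (-1)*I*y1^2*y2 + I*y0*y5^2 + (-1)*I*y0*y4*y5 + I*y0*y4^2 + I*y0*y3*y5 + (-1)*I*y0*y2*y5 + I*y0*y2^2 + I*y0*y1*y5) * h3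
  · linear_combination ((-1)*y5^2 + (-1)*y4*y5 + y3*y5 + (-1)*y2*y5 + y2*y4 + y2*y3 + (-1)*y2^2 + y1*y5 + (-1)*y1*y4 + y1*y2 + (-1)*y1^2 + (-1)*I*y5^2 + (-1)*I*y4*y5 + (-1)*I*y4^2 + (-1)*I*y3*y4 + (-1)*I*y2*y4 + I*y2*y3 + I*y2^2 + I*y1*y5 + I*y1*y4 + I*y1*y3 + I*y1*y2 + I*y1^2) * e1 + (y5^2 + y2*y5 + y2*y4 + y2*y3 + y2^2 + y1*y5 + y1*y3 + (-1)*y1*y2 + (-1)*y1^2 + (-1)*I*y4*y5 + I*y4^2 + I*y2*y4 + I*y1*y5 + (-1)*I*y1*y4 + I*y1*y2 + (-1)*I*y1^2) * e2 + ((-1)*y5^2 + (-1)*y4^2 + y3*y5 + (-1)*y2*y5 + y2*y3 + (-1)*y2^2 + (-1)*I*y4*y5 + (-1)*I*y4^2 + (-1)*I*y3*y4 + I*y2*y5 + (-1)*I*y2*y3 + (-1)*I*y2^2) * e3 + ((-1)*y5 + y4 + (-1)*y3) * q0 + ((-1)*y3 + (-1)*I*y5 + (-1)*I*y4) * q1 + ((-1)*y3 + (-1)*I*y5 + (-1)*I*y4) * q2 + (y5^3 + (-8)*y4*y5^2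 + (3)*y4^2*y5 + (2)*y4^3 + (-5)*y3*y5^2 + (3)*y3*y4^2 + (4)*y2*y5^2 + (-6)*y2*y4*y5 + (2)*y2*y4^2 + (-7)*y2*y3*y5 + y2*y3*y4 + y2*y3^2 + y2^2*y5 + (-3)*y2^2*y4 + y2^2*y3 + (2)*y1*y5^2 + (-1)*y1*y4*y5 + (-3)*y1*y4^2 + (-1)*y1*y3*y4 + (4)*y1*y2*y5 + (2)*y1*y2*y4 + (2)*y1*y2*y3 + (-2)*y1^2*y4 + (2)*y1^2*y3 + (-3)*y0*y2*y3 + (-3)*y0*y2^2 + (-2)*y0*y1*y5 + (-1)*y0*y1*y4 + (-2)*y0*y1*y3 + (-1)*I*y5^3 + (5)*I*y4*y5^2 + (-1)*I*y4^2*y5 + (-3)*I*y4^3 + (3)*I*y3*y4*y5 + (-5)*I*y3*y4^2 + I*y3^2*y5 + (-4)*I*y2*y5^2 + (3)*I*y2*y4*y5 + (-1)*I*y2*y4^2 + (3)*I*y2*y3*y5 + (-5)*I*y2*y3*y4 + I*y2*y3^2 + (2)*I*y2^2*y5 + (-2)*I*y2^2*y4 + (-1)*I*y2^2*y3 + (-1)*I*y1*y5^2 + I*y1*y4^2 + (-1)*I*y1*y3*y5 + I*y1*y3*y4 + (-1)*I*y1*y2*y5 + (-1)*I*y1*y2*y4 +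 (-1)*I*y1*y2*y3 + I*y1^2*y5 + I*y1^2*y4 + I*y1^2*y3 + I*y0*y5^2 + I*y0*y4*y5 + (-1)*I*y0*y3*y5 + I*y0*y2*y5 + (-1)*I*y0*y2*y4 + (-1)*I*y0*y2*y3 + I*y0*y2^2 + (-1)*I*y0*y1*y5 + I*y0*y1*y4 + (-1)*I*y0*y1*y2 + I*y0*y1^2 + (-1)*I^2*y4*y5^2 + I^2*y4^3 + (-2)*I^2*y3*y4*y5 + (-1)*I^2*y3^2*y4 + I^2*y2*y5^2 + (-1)*I^2*y2*y4*y5 + I^2*y2*y3*y4 + (-1)*I^2*y2*y3^2 + (-1)*I^2*y2^2*y5 + I^2*y2^2*y4 + (-1)*I^2*y2^2*y3 + I^2*y0*y4*y5 + I^2*y0*y4^2 + I^2*y0*y3*y4 + (-1)*I^2*y0*y2*y5 + I^2*y0*y2*y3 + I^2*y0*y2^2) * hI + ((2)*y4*y5^2 + (-1)*y4^2*y5 + (-1)*y4^3 + y3*y5^2 + y3*y4*y5 + (-1)*y3*y4^2 + (-2)*y2*y5^2 + (-1)*y2*y4^2 + (2)*y2*y3*y5 + (-1)*y2^2*y5 + (-1)*y2^3 + (-1)*y1*y5^2 + y1*y4*y5 + y1*y4^2 + (-1)*y1*y3*y5 + (-1)*y1*y2*y5 + (-1)*y1*y2*y4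 + (-2)*y1*y2*y3 + y1*y2^2 + y1^2*y4 + (-1)*y1^2*y3 + y1^3 + y0*y2*y3 + y0*y2^2 + y0*y1*y5 + y0*y1*y3 + I*y4*y5^2 + I*y4^3 + I*y3*y5^2 + (-2)*I*y3*y4*y5 + I*y3*y4^2 + (2)*I*y2*y4*y5 + (-1)*I*y2*y4^2 + I*y2*y3*y5 + I*y2*y3*y4 + (-1)*I*y2^2*y5 + (2)*I*y2^2*y4 + I*y1*y5^2 + I*y1*y4*y5 + I*y1*y4^2 + I*y1*y3*y5 + I*y1*y3*y4 + (-1)*I*y1*y2*y5 + I*y1*y2*y3 + (-2)*I*y1^2*y5 + (-1)*I*y1^2*y3) * h3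
  · linear_combination ((-1)*y5^2 + y4^2 + y3*y4 + (-1)*y2*y5 + y2*y4 + (-1)*y2*y3 + (-1)*y2^2 + y1*y5 + (-1)*y1*y3 + (-1)*I*y5^2 + I*y4*y5 + (-1)*I*y4^2 + I*y3*y5 + I*y3*y4 + (-1)*I*y3^2 + (-1)*I*y2*y5 + (-1)*I*y2*y4 + (-1)*I*y2^2 + I*y1*y4 + I*y1*y3) * e1 + (y5^2 + y4*y5 + (-1)*y4^2 + y2*y4 + y2*y3 + (-1)*y2^2 + (-1)*y1*y5 + y1*y3 + (-1)*I*y4*y5 + I*y4^2 + (-1)*I*y3*y5 + I*y3*y4 + (-1)*I*y2*y5 + I*y2*y3 + (-1)*I*y1*y4 + (-1)*I*y1*y3) * e2 + ((-1)*y5^2 + y4*y5 + y3*y5 + y2*y4 + y2*y3 + (-1)*y2^2 + (-1)*I*y4*y5 + I*y4^2 + I*y3*y5 + I*y3*y4 + (-1)*I*y3^2 + (-1)*I*y2*y5 + I*y2*y3 + I*y2^2) * e3 + ((-1)*y5 + y4 + (-1)*y3 + (-1)*I*y5 + (-1)*I*y4) * q0 + ((-1)*y3) * q1 + ((-1)*y5 + y4 + (-1)*y3 + (-1)*I*y5 + (-1)*I*y4) * q2 + (y5^3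 + (-10)*y4*y5^2 + (5)*y4^2*y5 + (2)*y4^3 + (-4)*y3*y5^2 + (4)*y3*y4*y5 + (-2)*y3*y4^2 + (-3)*y3^2*y5 + (3)*y3^2*y4 + (-5)*y2*y5^2 + (-4)*y2*y4*y5 + (3)*y2*y4^2 + (-2)*y2*y3^2 + (5)*y2^2*y5 + (-3)*y2^2*y4 + (-1)*y2^2*y3 + y1*y5^2 + (-3)*y1*y4^2 + (-1)*y1*y3*y5 + (-3)*y1*y3*y4 + (-3)*y0*y4*y5 + (3)*y0*y4^2 + (3)*y0*y2^2 + y0*y1*y5 + (-1)*y0*y1*y4 + (-2)*y0*y1*y3 + (-1)*I*y5^3 + (6)*I*y4*y5^2 + (-7)*I*y4^2*y5 + (2)*I*y4^3 + (-2)*I*y3*y5^2 + I*y3*y4*y5 + I*y3*y4^2 + (5)*I*y3^2*y5 + (-4)*I*y3^2*y4 + (4)*I*y2*y5^2 + (-1)*I*y2*y4*y5 + (-1)*I*y2*y4^2 + (-2)*I*y2*y3*y5 + (2)*I*y2*y3*y4 + (-4)*I*y2^2*y5 + (4)*I*y2^2*y4 + (-1)*I*y2^2*y3 + I*y1*y4*y5 + I*y1*y4^2 + I*y1*y3*y5 + (2)*I*y1*y3*y4 + I*y1*y3^2 + I*y0*y5^2 + (-1)*I*y0*y4^2 + (-1)*I*y0*y3*y4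 + I*y0*y2*y5 + (-1)*I*y0*y2*y4 + (-2)*I*y0*y2*y3 + I*y0*y2^2 + I*y0*y1*y4 + I*y0*y1*y3 + (-1)*I^2*y4*y5^2 + (2)*I^2*y4^2*y5 + (-1)*I^2*y4^3 + I^2*y3*y5^2 + (-1)*I^2*y3*y4*y5 + (2)*I^2*y3^2*y4 + (-1)*I^2*y3^3 + (-1)*I^2*y2*y5^2 + I^2*y2*y4*y5 + (-1)*I^2*y2*y3*y4 + I^2*y2*y3^2 + I^2*y2^2*y5 + (-1)*I^2*y2^2*y4 + I^2*y2^2*y3 + I^2*y0*y4*y5 + (-1)*I^2*y0*y4^2 + (-1)*I^2*y0*y3*y5 + (-1)*I^2*y0*y3*y4 + I^2*y0*y3^2 + I^2*y0*y2*y5 + (-1)*I^2*y0*y2*y3 + (-1)*I^2*y0*y2^2) * hI + ((2)*y4*y5^2 + (-2)*y4^2*y5 + y3*y5^2 + (-1)*y3*y4*y5 + y3*y4^2 + y3^2*y5 + (-1)*y3^2*y4 + y2*y5^2 + y2*y3^2 + (-1)*y2^2*y5 + y2^2*y4 + y1*y4^2 + y1*y2*y5 + (-1)*y1*y2*y4 + (-1)*y1*y2*y3 + y1*y2^2 + y0*y4*y5 + (-1)*y0*y4^2 + (-1)*y0*y2^2 + y0*y1*y3 + (2)*I*y4*y5^2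 + (2)*I*y4^2*y5 + (-2)*I*y4^3 + I*y3*y5^2 + (-1)*I*y3*y4*y5 + (-1)*I*y3^2*y5 + I*y3^2*y4 + (-1)*I*y2*y5^2 + (3)*I*y2*y4*y5 + (-1)*I*y2*y4^2 + (2)*I*y2*y3*y5 + (-1)*I*y2*y3^2 + (-1)*I*y2^2*y5 + (-1)*I*y2^2*y4 + (-1)*I*y1*y4*y5 + I*y1*y2*y5 + I*y1*y2*y4 + I*y0*y2*y3) * h3
  · linear_combination ((-1)*y3*y5 + (-1)*y3*y4 + y3^2 + (-1)*y1*y3 + I*y2*y3 + I*y1*y3) * e1 + ((-1)*y3*y5 + y3*y4 + y3^2 + (-1)*y2*y3 + y1*y3 + I*y3*y5 + I*y2*y3 + (-1)*I*y1*y3) * e2 + (y3*y5 + (-1)*y3*y4 + y3^2 + (-1)*y2*y3 + (-1)*I*y3*y5 + I*y3*y4 + I*y3^2) * e3 + ((-1)*y3) * q0 + ((-1)*y5 + y4 + (-1)*y3 + (-1)*I*y5 + (-1)*I*y4) * q1 + ((-1)*y3) * q2 + ((-2)*y3*y5^2 + (12)*y3*y4*y5 + (-6)*y3*y4^2 + (-2)*y3^2*y4 + (-2)*y3^3 + (7)*y2*y3*y5 + (-1)*y2*y3*y4 + (2)*y2*y3^2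 + (-2)*y1*y3*y5 + (-4)*y1*y3*y4 + (-2)*y0*y1*y3 + (3)*I*y3*y5^2 + (-9)*I*y3*y4*y5 + (4)*I*y3*y4^2 + (-2)*I*y3^2*y5 + I*y3^2*y4 + I*y3^3 + (-2)*I*y2*y3*y5 + (-2)*I*y2*y3^2 + I*y1*y3*y5 + I*y1*y3*y4 + I*y1*y3^2 + (-2)*I*y0*y3*y5 + I*y0*y3*y4 + (-1)*I*y0*y3^2 + I*y0*y1*y3 + (-1)*I^2*y3*y5^2 + (2)*I^2*y3*y4*y5 + (-1)*I^2*y3*y4^2 + I^2*y3^3 + I^2*y0*y3*y5 + (-1)*I^2*y0*y3*y4 + (-1)*I^2*y0*y3^2) * hI + (y3*y5^2 + (-3)*y3*y4*y5 + y3*y4^2 + (-1)*y3^2*y5 + y3^2*y4 + y3^3 + (-1)*y2*y3*y5 + (-1)*y2*y3*y4 + y1*y3*y5 + y1*y3*y4 + (-1)*y1*y3^2 + y0*y1*y3 + (-1)*I*y3*y5^2 + I*y3*y4^2 + (2)*I*y3^2*y5 + (-1)*I*y3^2*y4 + (-2)*I*y2*y3*y5 + I*y2*y3*y4 + I*y2*y3^2 + I*y1*y3*y4 + (-1)*I*y1*y3^2 + I*y0*y3*y5) * h3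
  · linear_combination ((-1)*y4*y5 + (-1)*y3*y4 + y2*y4 + y1*y4 + I*y4*y5 + I*y1*y4) * e1 + ((-1)*y4*y5 + y4^2 + y2*y4 + (-1)*y1*y4 + I*y2*y4 + (-1)*I*y1*y4) * e2 + ((-1)*y4*y5 + (-1)*y3*y4 + I*y4^2 + I*y2*y4) * e3 + (I*y4) * q0 + ((-1)*I*y4) * q1 + (y5) * q2 + ((5)*y4*y5^2 + (-2)*y4^2*y5 + (-3)*y4^3 + (5)*y3*y4*y5 + (-5)*y3*y4^2 + (3)*y2*y4*y5 + (-1)*y2*y4^2 + (-2)*y2*y3*y4 + (-2)*y1*y4^2 + (2)*y1*y3*y4 + (-1)*I*y4*y5^2 + (-2)*I*y4^2*y5 + (3)*I*y4^3 + (-2)*I*y3*y4*y5 + I*y3*y4^2 + (-1)*I*y3^2*y4 + (-4)*I*y2*y4*y5 + (2)*I*y2*y4^2 + (-1)*I*y2*y3*y4 + I*y1*y4*y5 + I*y1*y4^2 + I*y1*y3*y4 + I*y0*y4*y5 + I*y0*y3*y4 + (-1)*I*y0*y2*y4 + I*y0*y1*y4 + I^2*y4^2*y5 + (-1)*I^2*y4^3 + I^2*y3*y4^2 + I^2*y2*y4*y5 + (-1)*I^2*y2*y4^2 + I^2*y2*y3*y4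 + (-1)*I^2*y0*y4^2 + (-1)*I^2*y0*y2*y4) * hI + ((-1)*y4*y5^2 + y4^3 + (-1)*y3*y4*y5 + y3*y4^2 + (-2)*y2*y4*y5 + y1*y4*y5 + y1*y4^2 + (-2)*I*y4*y5^2 + (2)*I*y4^2*y5 + (-1)*I*y3*y4*y5 + I*y3*y4^2 + (2)*I*y2*y4*y5 + I*y2*y3*y4 + (-1)*I*y1*y4*y5 + (-1)*I*y1*y4^2 + (-1)*I*y0*y1*y4) * h3
  · linear_combination (y5^2 + y3*y5 + (-1)*y2*y5 + (-1)*y1*y5 + (-1)*I*y5^2 + (-1)*I*y1*y5) * e1 + (y5^2 + (-1)*y4*y5 + (-1)*y2*y5 + y1*y5 + (-1)*I*y2*y5 + I*y1*y5) * e2 + (y5^2 + y3*y5 + (-1)*I*y4*y5 + (-1)*I*y2*y5) * e3 + ((-1)*I*y5) * q0 + (I*y5) * q1 + (y4) * q2 + ((-5)*y5^3 + (2)*y4*y5^2 + (3)*y4^2*y5 + (-5)*y3*y5^2 + (5)*y3*y4*y5 + (-3)*y2*y5^2 + y2*y4*y5 + (2)*y2*y3*y5 + (2)*y1*y4*y5 + (-2)*y1*y3*y5 + I*y5^3 + (2)*I*y4*y5^2 + (-3)*I*y4^2*y5 +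 (2)*I*y3*y5^2 + (-1)*I*y3*y4*y5 + I*y3^2*y5 + (4)*I*y2*y5^2 + (-2)*I*y2*y4*y5 + I*y2*y3*y5 + (-1)*I*y1*y5^2 + (-1)*I*y1*y4*y5 + (-1)*I*y1*y3*y5 + (-1)*I*y0*y5^2 + (-1)*I*y0*y3*y5 + I*y0*y2*y5 + (-1)*I*y0*y1*y5 + (-1)*I^2*y4*y5^2 + I^2*y4^2*y5 + (-1)*I^2*y3*y4*y5 + (-1)*I^2*y2*y5^2 + I^2*y2*y4*y5 + (-1)*I^2*y2*y3*y5 + I^2*y0*y4*y5 + I^2*y0*y2*y5) * hI + (y5^3 + (-1)*y4^2*y5 + y3*y5^2 + (-1)*y3*y4*y5 + (2)*y2*y5^2 + (-1)*y1*y5^2 + (-1)*y1*y4*y5 + (2)*I*y5^3 + (-2)*I*y4*y5^2 + I*y3*y5^2 + (-1)*I*y3*y4*y5 + (-2)*I*y2*y5^2 + (-1)*I*y2*y3*y5 + I*y1*y5^2 + I*y1*y4*y5 + I*y0*y1*y5) * h3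

theorem result (K : Type u) [Field K] [CharP K 3] (i : K) (hi : i ^ 2 = -1) :
    ∃ t : Fin 6 → K, Function.Injective t ∧ (∀ v, t v ≠ 0) ∧
      (∀ l ∈ piece (SR K Oct ⊔ momentIdeal 3 t) 1, l ^ 3 = 0) ∧
      ¬ HardLefschetz (SR K Oct ⊔ momentIdeal 3 t) 3 := by
  have h3 : (3 : K) = 0 := by exact_mod_cast CharP.cast_eq_zero K 3
  have hne : ∀ a b : ℤ, ((a : K) + b * i = 0) → ((a ^ 2 + b ^ 2 : ℤ) : K) = 0 := by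
    intro a b h
    push_cast
    linear_combination ((a : K) - b * i) * h + (b : K) ^ 2 * hi
  have hne' : ∀ a b : ℤ, ¬ (3 : ℤ) ∣ a ^ 2 + b ^ 2 → (a : K) + b * i ≠ 0 := fun a b h h' =>
    h ((CharP.intCast_eq_zero_iff K 3 _).mp (hne a b h'))
  let p : Fin 6 → ℤ × ℤ := ![(0, 1), (1, 0), (-1, 0), (0, -1), (-1, 1), (1, -1)]
  let t : Fin 6 → K := fun v => (p v).1 + (p v).2 * i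
  set J := SR K Oct ⊔ momentIdeal 3 t with hJ
  have hcube : ∀ l ∈ piece J 1, l ^ 3 = 0 := by
    rintro _ ⟨l, hl, rfl⟩
    have h := (mem_homogeneousSubmodule _ _).mpr hl
    rw [homogeneousSubmodule_one_eq_span_X, Submodule.mem_span_range_iff_exists_fun] at h
    obtain ⟨a, rfl⟩ := h
    have h3' : (3 : MvPolynomial (Fin 6) K ⧸ J) = 0 := by
      rw [← map_ofNat (algebraMap K (MvPolynomial (Fin 6) K ⧸ J)) 3, h3, map_zero]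
    have hth : ∀ j, 1 ≤ j → j ≤ 3 → ∑ v, (algebraMap K (MvPolynomial (Fin 6) K ⧸ J) (t v)) ^ j *
        Ideal.Quotient.mk J (X v) = 0 := by
      intro j h1 h2
      have : (∑ v, C (t v ^ j) * X v : MvPolynomial (Fin 6) K) ∈ J :=
        Submodule.mem_sup_right (Ideal.subset_span ⟨j, h1, h2, rfl⟩)
      rw [← Ideal.Quotient.eq_zero_iff_mem, map_sum] at this
      rw [← this]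
      refine Finset.sum_congr rfl fun v _ => ?_
      rw [map_mul, ← map_pow]; rfl
    have hq : ∀ a b : Fin 6, a ≠ b → {a, b} ∉ Oct →
        Ideal.Quotient.mk J (X a) * Ideal.Quotient.mk J (X b) = 0 := by
      intro a b hab h
      rw [← map_mul, Ideal.Quotient.eq_zero_iff_mem]
      exact Submodule.mem_sup_left (Ideal.subset_span ⟨_, h, by rw [Finset.prod_pair hab]⟩)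
    have e1 := hth 1 (by norm_num) (by norm_num)
    have e2 := hth 2 (by norm_num) (by norm_num)
    have e3 := hth 3 (by norm_num) (by norm_num)
    simp only [Fin.sum_univ_six, t, p, map_add, map_mul, map_intCast] at e1 e2 e3
    obtain ⟨c0, c1, c2, c3, c4, c5⟩ := cubes (algebraMap K (MvPolynomial (Fin 6) K ⧸ J) i)
      (Ideal.Quotient.mk J (X 0)) (Ideal.Quotient.mk J (X 1)) (Ideal.Quotient.mk J (X 2))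
      (Ideal.Quotient.mk J (X 3)) (Ideal.Quotient.mk J (X 4)) (Ideal.Quotient.mk J (X 5))
      (by rw [← map_pow, hi]; simp) h3'
      (by simp at e1; linear_combination e1) (by simp at e2; linear_combination e2)
      (by simp at e3; linear_combination e3)
      (hq 0 1 (by decide) (by decide)) (hq 2 3 (by decide) (by decide))
      (hq 4 5 (by decide) (by decide))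
    have frob : ∀ x y : MvPolynomial (Fin 6) K ⧸ J, x ^ 3 = 0 → y ^ 3 = 0 → (x + y) ^ 3 = 0 := by
      intro x y hx hy
      linear_combination hx + hy + (x ^ 2 * y + x * y ^ 2) * h3'
    have sm : ∀ (c : K) (v : Fin 6), Ideal.Quotient.mk J (X v) ^ 3 = 0 →
        Ideal.Quotient.mk J (c • X v) ^ 3 = 0 := by
      intro c v h
      rw [smul_eq_C_mul, map_mul, mul_pow, h, mul_zero]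
    simp only [Fin.sum_univ_six, map_add]
    exact frob _ _ (frob _ _ (frob _ _ (frob _ _ (frob _ _ (sm _ _ c0) (sm _ _ c1)) (sm _ _ c2))
      (sm _ _ c3)) (sm _ _ c4)) (sm _ _ c5)
  refine ⟨t, ?_, ?_, hcube, ?_⟩
  · intro v w h
    by_contra hvw
    refine hne' ((p v).1 - (p w).1) ((p v).2 - (p w).2) ?_ ?_
    · clear h; revert v w; decide
    · push_cast
      simp only [t] at h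
      linear_combination h
  · intro v
    refine hne' _ _ ?_
    revert v; decide
  · rintro ⟨l, hl, h⟩
    have h1 := (h 0 (by norm_num)).injOn ⟨1, isHomogeneous_one _ _, rfl⟩
      ⟨0, isHomogeneous_zero _ _ _, rfl⟩ (by simp [hcube l hl])
    rw [Ideal.Quotient.eq, sub_zero] at h1
    have hle : J ≤ RingHom.ker (constantCoeff : MvPolynomial (Fin 6) K →+* K) := by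
      refine sup_le ?_ ?_
      · rw [SR, Ideal.span_le]
        rintro _ ⟨s, hs, rfl⟩
        have : s.Nonempty := by
          rw [Finset.nonempty_iff_ne_empty]; rintro rfl; exact hs (by decide)
        obtain ⟨v, hv⟩ := this
        show constantCoeff _ = 0
        rw [map_prod]
        exact Finset.prod_eq_zero hv (by simp)
      · rw [momentIdeal, Ideal.span_le]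
        rintro _ ⟨j, -, -, rfl⟩
        show constantCoeff _ = 0
        simp
    simpa using hle h1

end Pool.Agent.Results.MP_487945_co.OctahedronCharThree
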